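import Mathlib

set_option linter.unusedVariables false

namespace Pool.Agent.Results.MP_c65526_co.Ratio

open Finset

lemma step {n : ℕ} (H : SimpleGraph (Fin n)) [DecidableRel H.Adj] (q s : Fin n → ℝ)
    (hs : ∀ w, ∑ z, (if H.Adj w z then q z - q w else 0) ≤ s w) (a b : Fin n) (hab : H.Adj b a)
    (hlt : q b < q a) : q a - q b ≤ ∑ w ∈ univ.filter (fun w => q w ≤ q b), s w := by
  set T := univ.filter (fun w => q w ≤ q b) with hT
  refine le_trans ?_ (sum_le_sum fun w _ => hs w)
  have h1 : ∀ w, ∑ z, (if H.Adj w z then q z - q w else 0) =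
      ∑ z ∈ T, (if H.Adj w z then q z - q w else 0) +
        ∑ z ∈ Tᶜ, (if H.Adj w z then q z - q w else 0) := fun w => (sum_add_sum_compl _ _).symm
  simp only [h1, sum_add_distrib]
  have h2 : ∑ w ∈ T, ∑ z ∈ T, (if H.Adj w z then q z - q w else 0) = 0 := by
    have : ∑ w ∈ T, ∑ z ∈ T, (if H.Adj w z then q z - q w else 0) =
        - ∑ w ∈ T, ∑ z ∈ T, (if H.Adj w z then q z - q w else 0) := by
      conv_lhs => rw [sum_comm]
      rw [← sum_neg_distrib]
      refine sum_congr rfl fun w _ => ?_
      rw [← sum_neg_distrib]
      refine sum_congr rfl fun z _ => ?_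
      by_cases h : H.Adj w z
      · simp [h, h.symm]
      · have h' : ¬ H.Adj z w := fun e => h e.symm
        simp [h, h']
    linarith
  rw [h2, zero_add]
  have hnn : ∀ w ∈ T, ∀ z ∈ Tᶜ, 0 ≤ (if H.Adj w z then q z - q w else 0) := by
    intro w hw z hz
    simp only [hT, mem_compl, mem_filter, mem_univ, true_and, not_le] at hw hz
    split_ifs <;> linarith
  have hb : b ∈ T := by simp [hT]
  have ha : a ∈ Tᶜ := by simp [hT, hlt]
  refine le_trans ?_ (single_le_sum (f := fun w => ∑ z ∈ Tᶜ, (if H.Adj w z then q z - q w else 0))
    (fun w hw => sum_nonneg (hnn w hw)) hb)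
  refine le_trans ?_ (single_le_sum (f := fun z => (if H.Adj b z then q z - q b else 0))
    (hnn b hb) ha)
  simp [hab]

lemma main {n : ℕ} (H : SimpleGraph (Fin n)) (hc : H.Connected) (q : Fin n → ℝ)
    (hq : ∀ w, 0 < q w) (u v : Fin n) (huv : q u ≤ q v)
    (hstep : ∀ a b, H.Adj b a →
      q a ≤ q b + (if q u ≤ q b then q u else 0) + (if q v ≤ q b then q v else 0))
    (x y : Fin n) : q x ≤ (n : ℝ) ^ 2 * q y := by
  have w1 : ∀ {b c} (p : H.Walk b c), q b < q u → q c ≤ q b := by
    intro b c p
    induction p with
    | nil => intro _; exact le_rfl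
    | @cons b a c h p ih =>
      intro hb
      have := hstep a b h
      rw [if_neg (by linarith), if_neg (by linarith)] at this
      exact (ih (by linarith)).trans (by linarith)
  have w2 : ∀ {b c} (p : H.Walk b c), q c ≤ q b + p.length * q u ∨ q v ≤ q b + p.length * q u := by
    intro b c p
    induction p with
    | nil => left; simp
    | @cons b a c h p ih =>
      have := hstep a b h
      have hu := hq u
      have hl : (0 : ℝ) ≤ p.length := by positivity
      rw [SimpleGraph.Walk.length_cons]
      push_cast
      by_cases hv : q v ≤ q b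
      · right; nlinarith
      · rw [if_neg hv] at this
        have h3 : q a ≤ q b + q u := by split_ifs at this <;> linarith
        rcases ih with ih | ih
        · left; linarith
        · right; linarith
  have w3 : ∀ {b c} (p : H.Walk b c), q c ≤ q b + p.length * (q u + q v) := by
    intro b c p
    induction p with
    | nil => simp
    | @cons b a c h p ih =>
      have := hstep a b h
      have hu := hq u
      have hv := hq v
      rw [SimpleGraph.Walk.length_cons]
      push_cast
      have h3 : q a ≤ q b + q u + q v := by split_ifs at this <;> linarith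
      linarith
  have len : ∀ b c, ∃ p : H.Walk b c, (p.length : ℝ) + 1 ≤ n := by
    intro b c
    obtain ⟨p, hp⟩ := (hc.preconnected b c).exists_isPath
    have := hp.length_lt
    rw [Fintype.card_fin] at this
    exact ⟨p, by exact_mod_cast this⟩
  have h1 : q u ≤ q y := by
    by_contra hh
    obtain ⟨p, -⟩ := len y u
    have := w1 p (not_le.1 hh)
    exact hh this
  have hu := hq u
  have h2 : q v ≤ n * q u := by
    obtain ⟨p, hp⟩ := len u v
    have : q v ≤ q u + p.length * q u := by rcases w2 p with h | h <;> exact h
    nlinarith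
  obtain ⟨p, hp⟩ := len u x
  have h3 := w3 p
  have hl : (0 : ℝ) ≤ p.length := by positivity
  have hv := hq v
  have h4 : (p.length : ℝ) * (q u + q v) ≤ (n - 1) * (q u + n * q u) :=
    mul_le_mul (by linarith) (by linarith) (by linarith) (by linarith)
  have h5 : (n : ℝ) ^ 2 * q u ≤ (n : ℝ) ^ 2 * q y := by gcongr
  nlinarith

open Classical in
theorem result (n d : ℕ) (G : SimpleGraph (Fin n)) (hreg : G.IsRegularOfDegree d)
    (hG : G.Connected) (u v : Fin n) (huv : G.Adj u v) (hbr : ¬ G.IsBridge s(u, v))
    (q : Fin n → ℝ) (lam : ℝ) (hq : ∀ w, 0 < q w)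
    (heig : ((G.deleteEdges {s(u, v)}).adjMatrix ℝ).mulVec q = lam • q) (x y : Fin n) :
    q x / q y ≤ (n : ℝ) ^ 2 := by
  set H := G.deleteEdges {s(u, v)} with hH
  have hc : H.Connected := hG.connected_delete_edge_of_not_isBridge hbr
  have he : ∀ w, ∑ z, (if H.Adj w z then q z else 0) = lam * q w := by
    intro w
    have := congrFun heig w
    simp only [Matrix.mulVec, dotProduct, SimpleGraph.adjMatrix_apply, ite_mul, one_mul, zero_mul,
      Pi.smul_apply, smul_eq_mul] at this
    rw [← this]
  have hd : ∀ w, ∑ z, (if G.Adj w z then (1 : ℝ) else 0) = d := by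
    intro w
    rw [← hreg w, ← SimpleGraph.card_neighborFinset_eq_degree, SimpleGraph.neighborFinset_eq_filter]
    simp
  have hlam : lam ≤ d := by
    have : Nonempty (Fin n) := ⟨u⟩
    obtain ⟨w, hw⟩ := Finite.exists_max q
    have h1 : lam * q w ≤ d * q w := by
      rw [← he w, ← hd w, sum_mul]
      refine sum_le_sum fun z _ => ?_
      by_cases h : H.Adj w z
      · have : G.Adj w z := (SimpleGraph.deleteEdges_adj.1 h).1
        simp [h, this, hw z]
      · rw [if_neg h]; split_ifs
        · simp [(hq w).le]
        · simp
    exact le_of_mul_le_mul_right h1 (hq w)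
  have hs : ∀ w, ∑ z, (if H.Adj w z then q z - q w else 0) ≤
      (if w = u then q u else 0) + (if w = v then q v else 0) := by
    intro w
    have h1 : ∑ z, (if H.Adj w z then q z - q w else 0) =
        lam * q w - ∑ z, (if H.Adj w z then q w else 0) := by
      rw [← he w, ← sum_sub_distrib]
      refine sum_congr rfl fun z _ => ?_
      split_ifs <;> simp
    have h2 : d * q w ≤ ∑ z, ((if H.Adj w z then q w else 0) +
        ((if z = v then (if w = u then q u else 0) else 0) +
          (if z = u then (if w = v then q v else 0) else 0))) := by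
      rw [← hd w, sum_mul]
      refine sum_le_sum fun z _ => ?_
      have a1 := hq w
      have a2 := hq u
      have a3 := hq v
      have n1 : 0 ≤ (if z = v then (if w = u then q u else 0) else 0) := by
        split_ifs <;> linarith
      have n2 : 0 ≤ (if z = u then (if w = v then q v else 0) else 0) := by
        split_ifs <;> linarith
      by_cases h : H.Adj w z
      · rw [if_pos h]; split_ifs <;> linarith
      · rw [if_neg h]
        by_cases h' : G.Adj w z
        · have : s(w, z) = s(u, v) := by
            by_contra hne
            exact h (SimpleGraph.deleteEdges_adj.2 ⟨h', by simpa using hne⟩)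
          rcases Sym2.eq_iff.1 this with ⟨rfl, rfl⟩ | ⟨rfl, rfl⟩
          · rw [if_pos h', if_pos rfl, if_pos rfl]; linarith
          · rw [if_pos h', if_pos (rfl : z = z), if_pos (rfl : w = w)]; linarith
        · rw [if_neg h']; linarith
    simp only [sum_add_distrib, sum_ite_eq', mem_univ, if_true] at h2
    have := mul_le_mul_of_nonneg_right hlam (hq w).le
    linarith
  have hstep : ∀ a b, H.Adj b a →
      q a ≤ q b + (if q u ≤ q b then q u else 0) + (if q v ≤ q b then q v else 0) := by
    intro a b hab
    by_cases hlt : q b < q a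
    · have := step H q _ hs a b hab hlt
      simp only [sum_add_distrib, sum_ite_eq', mem_filter, mem_univ, true_and] at this
      linarith
    · have a2 := hq u
      have a3 := hq v
      split_ifs <;> linarith
  rw [div_le_iff₀ (hq y)]
  rcases le_total (q u) (q v) with h | h
  · exact main H hc q hq u v h hstep x y
  · exact main H hc q hq v u h (fun a b hab => by have := hstep a b hab; linarith) x y

end Pool.Agent.Results.MP_c65526_co.Ratio
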